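import Pool.Agent.H16.Queue2

set_option autoImplicit false

open MeasureTheory Pool.Agent.H16.Queue

namespace Pool.Agent.Results.MP_68c8f2_pr.Disproof

/-- There are an interarrival law `τ` and a service law `σ` such that the GI/GI/2 queue with
`ρ = ES/(2 ET) < 1` has a strictly larger stationary mean waiting time than the GI/GI/1 queue with
interarrival law `τ` and service time `S/2`. -/
theorem result : ∃ τ σ : Measure ℝ, IsTimeLaw τ ∧ IsTimeLaw σ ∧
    (∫ s, s ∂σ) / (2 * ∫ t, t ∂τ) < 1 ∧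
    ∃ (π : Measure (Fin 2 → ℝ)) (π' : Measure (Fin 1 → ℝ)),
      IsLimitLaw 2 τ σ π ∧ IsLimitLaw 1 τ (σ.map (fun s => s / 2)) π' ∧
      meanWait π' < meanWait π := by
  refine ⟨Measure.dirac 8, sg 12 18, ⟨inferInstance, ?_, ?_, ?_⟩,
    ⟨inferInstance, sg_neg _ _ (by norm_num) (by norm_num), integrable_sg _ _ _ stronglyMeasurable_id,
      by rw [integral_sg]; norm_num⟩, ?_, ?_⟩
  · rw [Measure.dirac_apply' _ measurableSet_Iio, Set.indicator_of_notMem (by norm_num)]
  · exact integrable_dirac' stronglyMeasurable_id (by simp)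
  · rw [integral_dirac]; norm_num
  · rw [integral_sg, integral_dirac]; norm_num
  · obtain ⟨π, h1, h2⟩ := loynes (good_two 8) 12 18 _ ENNReal.ofReal_ne_top bound_two
    obtain ⟨π', h3, h4⟩ := loynes (good_one 8) 6 9 _ ENNReal.ofReal_ne_top bound_one
    refine ⟨π, π', h1, ?_, ?_⟩
    · have e := sg_map 12 18 (fun s => s / 2) (measurable_id.div_const 2)
      have e1 : (12 : ℝ) / 2 = 6 := by norm_num
      have e2 : (18 : ℝ) / 2 = 9 := by norm_num
      simp only [e1, e2] at e
      rw [e]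
      exact h3
    · rw [h2, h4]
      calc (⨆ n, m 1 8 6 9 0 n) ≤ ENNReal.ofReal (19 / 96) := iSup_le fun n => bound_one n 0
        _ < ENNReal.ofReal (1 / 4) := (ENNReal.ofReal_lt_ofReal_iff (by norm_num)).2 (by norm_num)
        _ ≤ m 2 8 12 18 0 2 := lower_two
        _ ≤ _ := le_iSup (fun n => m 2 8 12 18 0 n) 2

end Pool.Agent.Results.MP_68c8f2_pr.Disproof
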